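import Mathlib

set_option autoImplicit false

namespace Pool.Agent.Results.MP_2af528_co.NoMinMaxBlock

/-- A family `P` of subsets of a poset `S` is an interval partition of `S`: every block is an
interval `[x, y]` with `x ≤ y`, distinct blocks are disjoint, and the blocks cover `S`. -/
structure IsIntervalPartition {S : Type*} [PartialOrder S] (P : Set (Set S)) : Prop where
  isInterval : ∀ B ∈ P, ∃ x y : S, x ≤ y ∧ B = Set.Icc x y
  pairwiseDisjoint : ∀ B ∈ P, ∀ C ∈ P, B ≠ C → Disjoint B C
  cover : ⋃₀ P = Set.univ

/-- An interval partition is optimum if it has the minimum number of blocks among all interval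
partitions of `S`. (`Set.encard` is the true cardinality, in `ℕ∞`.) -/
def IsOptimum {S : Type*} [PartialOrder S] (P : Set (Set S)) : Prop :=
  IsIntervalPartition P ∧ ∀ Q : Set (Set S), IsIntervalPartition Q → P.encard ≤ Q.encard

/-- `P` has a block `[x, y]` with `x` minimal and `y` maximal in `S`. -/
def HasMinMaxBlock {S : Type*} [PartialOrder S] (P : Set (Set S)) : Prop :=
  ∃ x y : S, IsMin x ∧ IsMax y ∧ x ≤ y ∧ Set.Icc x y ∈ P

/-- The ground set of the counterexample: `2 r + 6` elements. -/
inductive El (r : ℕ) : Type
  | t : El r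
  | c : El r
  | b : El r
  | y : Fin r → El r
  | a : El r
  | x : El r
  | z : El r
  | u : Fin r → El r
  deriving DecidableEq

namespace El

/-- The order: `b < y i < c < t`, `a < x < u i < t`, `a < z < t`, `a < c`. -/
def le {r : ℕ} : El r → El r → Prop
  | t, t => True
  | c, c => True
  | c, t => True
  | b, b => True
  | b, y _ => True
  | b, c => True
  | b, t => True
  | y i, y j => i = j
  | y _, c => True
  | y _, t => True
  | a, a => True
  | a, x => True
  | a, z => True
  | a, u _ => True
  | a, c => True
  | a, t => True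
  | x, x => True
  | x, u _ => True
  | x, t => True
  | z, z => True
  | z, t => True
  | u i, u j => i = j
  | u _, t => True
  | _, _ => False

instance {r : ℕ} : PartialOrder (El r) where
  le := le
  le_refl p := by cases p <;> simp [le]
  le_trans p q s := by
    cases p <;> cases q <;> cases s <;> simp +contextual [le]
  le_antisymm p q := by
    cases p <;> cases q <;> simp +contextual [le]

theorem le_def {r : ℕ} (p q : El r) : p ≤ q ↔ le p q := Iff.rfl

/-- `El r` is finite. -/
instance {r : ℕ} : Finite (El r) := by
  let f : El r → Fin 8 × Option (Fin r) := fun p => match p with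
    | t => (0, none)
    | c => (1, none)
    | b => (2, none)
    | y i => (3, some i)
    | a => (4, none)
    | x => (5, none)
    | z => (6, none)
    | u i => (7, some i)
  refine Finite.of_injective f ?_
  intro p q h
  cases p <;> cases q <;> simp_all [f]

theorem isMax_eq {r : ℕ} {p : El r} (h : IsMax p) : p = t := by
  have h1 : p ≤ t := by cases p <;> simp [le_def, le]
  exact le_antisymm h1 (h h1)

theorem isMin_eq {r : ℕ} {p : El r} (h : IsMin p) : p = a ∨ p = b := by
  cases p with
  | t => exact absurd (h (show a ≤ t by simp [le_def, le])) (by simp [le_def, le])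
  | c => exact absurd (h (show a ≤ c by simp [le_def, le])) (by simp [le_def, le])
  | b => exact Or.inr rfl
  | y i => exact absurd (h (show b ≤ y i by simp [le_def, le])) (by simp [le_def, le])
  | a => exact Or.inl rfl
  | x => exact absurd (h (show a ≤ x by simp [le_def, le])) (by simp [le_def, le])
  | z => exact absurd (h (show a ≤ z by simp [le_def, le])) (by simp [le_def, le])
  | u i => exact absurd (h (show a ≤ u i by simp [le_def, le])) (by simp [le_def, le])

end El

open El

/-- The interval partition with three blocks `[b, c]`, `[x, t]`, `[a, z]`. -/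
def three (r : ℕ) : Set (Set (El r)) :=
  {Set.Icc El.b El.c, Set.Icc El.x El.t, Set.Icc El.a El.z}

theorem three_isIntervalPartition (r : ℕ) : IsIntervalPartition (three r) := by
  refine ⟨?_, ?_, ?_⟩
  · intro B hB
    simp only [three, Set.mem_insert_iff, Set.mem_singleton_iff] at hB
    rcases hB with rfl | rfl | rfl
    · exact ⟨_, _, by simp [le_def, le], rfl⟩
    · exact ⟨_, _, by simp [le_def, le], rfl⟩
    · exact ⟨_, _, by simp [le_def, le], rfl⟩
  · have h12 : Disjoint (Set.Icc El.b El.c : Set (El r)) (Set.Icc El.x El.t) := by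
      rw [Set.disjoint_left]; intro p; cases p <;> simp [le_def, le]
    have h13 : Disjoint (Set.Icc El.b El.c : Set (El r)) (Set.Icc El.a El.z) := by
      rw [Set.disjoint_left]; intro p; cases p <;> simp [le_def, le]
    have h23 : Disjoint (Set.Icc El.x El.t : Set (El r)) (Set.Icc El.a El.z) := by
      rw [Set.disjoint_left]; intro p; cases p <;> simp [le_def, le]
    intro B hB C hC hne
    simp only [three, Set.mem_insert_iff, Set.mem_singleton_iff] at hB hC
    rcases hB with rfl | rfl | rfl <;> rcases hC with rfl | rfl | rfl <;>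
      first
        | exact absurd rfl hne
        | assumption
        | exact h12.symm
        | exact h13.symm
        | exact h23.symm
  · rw [Set.eq_univ_iff_forall]
    intro p
    simp only [three, Set.mem_sUnion, Set.mem_insert_iff, Set.mem_singleton_iff]
    cases p with
    | t => exact ⟨_, Or.inr (Or.inl rfl), by simp [le_def, le]⟩
    | c => exact ⟨_, Or.inl rfl, by simp [le_def, le]⟩
    | b => exact ⟨_, Or.inl rfl, by simp [le_def, le]⟩
    | y i => exact ⟨_, Or.inl rfl, by simp [le_def, le]⟩
    | a => exact ⟨_, Or.inr (Or.inr rfl), by simp [le_def, le]⟩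
    | x => exact ⟨_, Or.inr (Or.inl rfl), by simp [le_def, le]⟩
    | z => exact ⟨_, Or.inr (Or.inr rfl), by simp [le_def, le]⟩
    | u i => exact ⟨_, Or.inr (Or.inl rfl), by simp [le_def, le]⟩

theorem three_encard (r : ℕ) : (three r).encard = 3 := by
  have h12 : (Set.Icc El.b El.c : Set (El r)) ≠ Set.Icc El.x El.t := by
    intro h
    have : El.c ∈ (Set.Icc El.x El.t : Set (El r)) := h ▸ (by simp [le_def, le])
    simp [le_def, le] at this
  have h13 : (Set.Icc El.b El.c : Set (El r)) ≠ Set.Icc El.a El.z := by
    intro h
    have : El.c ∈ (Set.Icc El.a El.z : Set (El r)) := h ▸ (by simp [le_def, le])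
    simp [le_def, le] at this
  have h23 : (Set.Icc El.x El.t : Set (El r)) ≠ Set.Icc El.a El.z := by
    intro h
    have : El.t ∈ (Set.Icc El.a El.z : Set (El r)) := h ▸ (by simp [le_def, le])
    simp [le_def, le] at this
  unfold three
  rw [Set.encard_insert_of_notMem (by simp [h12, h13]),
    Set.encard_insert_of_notMem (by simp [h23]), Set.encard_singleton]
  norm_num

/-- If a block `A` of `P` and pairwise incomparable elements `v i` outside `A` are such that any
common upper bound of two different `v i` lies in `A`, then `P` has more than `r` blocks. -/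
theorem card_lower {S : Type*} [PartialOrder S] {P : Set (Set S)} (hP : IsIntervalPartition P)
    {A : Set S} (hA : A ∈ P) (r : ℕ) (v : Fin r → S) (hv : ∀ i, v i ∉ A)
    (hub : ∀ i j q, i ≠ j → v i ≤ q → v j ≤ q → q ∈ A) : ((r + 1 : ℕ) : ℕ∞) ≤ P.encard := by
  have hex : ∀ i, ∃ B ∈ P, v i ∈ B := by
    intro i
    have : v i ∈ ⋃₀ P := by rw [hP.cover]; trivial
    exact this
  choose B hBP hvB using hex
  have hinj : Function.Injective B := by
    intro i j hij
    by_contra hne
    obtain ⟨p, q, hpq, hB⟩ := hP.isInterval (B i) (hBP i)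
    have h1 : v i ≤ q := by have := hvB i; rw [hB] at this; exact this.2
    have h2 : v j ≤ q := by have := hvB j; rw [← hij, hB] at this; exact this.2
    have hqA := hub i j q hne h1 h2
    have hqB : q ∈ B i := by rw [hB]; exact ⟨hpq, le_rfl⟩
    have hneAB : B i ≠ A := by
      intro h
      exact hv i (h ▸ hvB i)
    exact (Set.disjoint_left.mp (hP.pairwiseDisjoint _ (hBP i) _ hA hneAB)) hqB hqA
  have hsub : insert A (Set.range B) ⊆ P := by
    intro C hC
    rcases hC with rfl | ⟨i, rfl⟩
    · exact hA
    · exact hBP i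
  have hnot : A ∉ Set.range B := by
    rintro ⟨i, hi⟩
    exact hv i (hi ▸ hvB i)
  calc ((r + 1 : ℕ) : ℕ∞) = (insert A (Set.range B)).encard := by
        rw [Set.encard_insert_of_notMem hnot, ← Set.image_univ, hinj.encard_image,
          Set.encard_univ]
        simp
    _ ≤ P.encard := Set.encard_le_encard hsub

theorem minMax_lower (r : ℕ) {P : Set (Set (El r))} (hP : IsIntervalPartition P)
    (h : HasMinMaxBlock P) : ((r + 1 : ℕ) : ℕ∞) ≤ P.encard := by
  obtain ⟨p, q, hp, hq, _, hmem⟩ := h
  obtain rfl := isMax_eq hq
  rcases isMin_eq hp with rfl | rfl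
  · refine card_lower hP hmem r (fun i => El.y i) ?_ ?_
    · intro i; simp [le_def, le]
    · intro i j q hij h1 h2
      cases q <;> simp_all [le_def, le]
  · refine card_lower hP hmem r (fun i => El.u i) ?_ ?_
    · intro i; simp [le_def, le]
    · intro i j q hij h1 h2
      cases q <;> simp_all [le_def, le]

theorem isMin_a {r : ℕ} : IsMin (El.a : El r) := by
  intro q hq
  cases q <;> simp_all [le_def, le]

theorem isMin_b {r : ℕ} : IsMin (El.b : El r) := by
  intro q hq
  cases q <;> simp_all [le_def, le]

theorem isMax_t {r : ℕ} : IsMax (El.t : El r) := by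
  intro q hq
  cases q <;> simp_all [le_def, le]

/-- If `3 ≤ r`, every interval partition has at least three blocks. -/
theorem three_le {r : ℕ} (hr : 3 ≤ r) {P : Set (Set (El r))} (hP : IsIntervalPartition P) :
    3 ≤ P.encard := by
  by_cases hmm : HasMinMaxBlock P
  · refine le_trans ?_ (minMax_lower r hP hmm)
    exact_mod_cast Nat.le_succ_of_le hr
  · have hex : ∀ v : El r, ∃ B ∈ P, v ∈ B := by
      intro v
      have : v ∈ ⋃₀ P := by rw [hP.cover]; trivial
      exact this
    obtain ⟨A, hAP, haA⟩ := hex El.a
    obtain ⟨B, hBP, hbB⟩ := hex El.b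
    obtain ⟨C, hCP, htC⟩ := hex El.t
    obtain ⟨a1, a2, ha12, hA⟩ := hP.isInterval A hAP
    obtain ⟨b1, b2, hb12, hB⟩ := hP.isInterval B hBP
    have ha1 : a1 = El.a := by
      rw [hA] at haA; exact le_antisymm haA.1 (isMin_a haA.1)
    have hb1 : b1 = El.b := by
      rw [hB] at hbB; exact le_antisymm hbB.1 (isMin_b hbB.1)
    have hAB : A ≠ B := by
      intro h
      rw [h, hB, hb1] at haA
      exact haA.1.elim
    have hAC : A ≠ C := by
      intro h
      have htA : El.t ∈ A := h ▸ htC
      rw [hA] at htA
      have h2 : a2 = El.t := le_antisymm (isMax_t htA.2) htA.2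
      refine hmm ⟨a1, a2, ha1 ▸ isMin_a, h2 ▸ isMax_t, ha12, ?_⟩
      rw [← hA]; exact hAP
    have hBC : B ≠ C := by
      intro h
      have htB : El.t ∈ B := h ▸ htC
      rw [hB] at htB
      have h2 : b2 = El.t := le_antisymm (isMax_t htB.2) htB.2
      refine hmm ⟨b1, b2, hb1 ▸ isMin_b, h2 ▸ isMax_t, hb12, ?_⟩
      rw [← hB]; exact hBP
    have hsub : ({A, B, C} : Set (Set (El r))) ⊆ P := by
      intro D hD
      rcases hD with rfl | rfl | rfl
      · exact hAP
      · exact hBP
      · exact hCP
    refine le_trans ?_ (Set.encard_le_encard hsub)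
    rw [Set.encard_insert_of_notMem (by simp [hAB, hAC]),
      Set.encard_insert_of_notMem (by simp [hBC]), Set.encard_singleton]
    norm_num

/-- **Disproof of Q1.** For every `k` there is a finite nonempty poset `S` such that

* no optimum interval partition of `S` has a block `[x, y]` with `x` minimal and `y` maximal,
* `S` has an optimum interval partition, and all of them have exactly three blocks, and
* every interval partition of `S` that has a block `[x, y]` with `x` minimal and `y` maximal has
  more than `k` blocks. -/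
theorem result : ∀ k : ℕ, ∃ (S : Type) (_ : PartialOrder S) (_ : Finite S) (_ : Nonempty S),
    (∀ P : Set (Set S), IsOptimum P → ¬ HasMinMaxBlock P) ∧
    (∃ P : Set (Set S), IsOptimum P) ∧
    (∀ P : Set (Set S), IsOptimum P → P.encard = 3) ∧
    (∀ P : Set (Set S), IsIntervalPartition P → HasMinMaxBlock P → (k : ℕ∞) < P.encard) := by
  intro k
  obtain ⟨r, hkr, hr⟩ : ∃ r : ℕ, k ≤ r ∧ 3 ≤ r := ⟨max k 3, le_max_left _ _, le_max_right _ _⟩
  have hk : ∀ P : Set (Set (El r)), IsIntervalPartition P → HasMinMaxBlock P →
      ((r : ℕ) : ℕ∞) < P.encard := by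
    intro P hP hmm
    refine lt_of_lt_of_le ?_ (minMax_lower r hP hmm)
    exact_mod_cast Nat.lt_succ_self r
  have h3r : (3 : ℕ∞) ≤ (r : ℕ∞) := by exact_mod_cast hr
  have hkr' : (k : ℕ∞) ≤ (r : ℕ∞) := by exact_mod_cast hkr
  have hle3 : ∀ P : Set (Set (El r)), IsOptimum P → P.encard ≤ 3 := by
    intro P hP
    have := hP.2 (three r) (three_isIntervalPartition r)
    rwa [three_encard] at this
  refine ⟨El r, inferInstance, inferInstance, ⟨El.t⟩, ?_, ?_, ?_, ?_⟩
  · intro P hP hmm
    exact absurd (hle3 P hP) (not_le.mpr (lt_of_le_of_lt h3r (hk P hP.1 hmm)))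
  · refine ⟨three r, three_isIntervalPartition r, ?_⟩
    intro Q hQ
    rw [three_encard]
    exact three_le hr hQ
  · intro P hP
    exact le_antisymm (hle3 P hP) (three_le hr hP.1)
  · intro P hP hmm
    exact lt_of_le_of_lt hkr' (hk P hP hmm)

end Pool.Agent.Results.MP_2af528_co.NoMinMaxBlock
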